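import Pool.Agent.Y343.LD.Stm
import Pool.Agent.Y343.LC.Van

/-!
Cayley graphs of groups with vanishing first cohomology with square-summable coefficients
(job LD-GRP of helper343, by helper383).
-/

set_option autoImplicit false

namespace Pool.Agent.Y383.LD

open Pool.Agent.Y343.LD
open Pool.Agent.Y343.LC (HC Cx normalize)
open Pool.Agent.Y343.LB (l2 mem_l2)

noncomputable section

variable {Γ : Type} [Group Γ]

theorem cay_reach (S : Finset Γ) (hS : Subgroup.closure (S : Set Γ) = ⊤) (g : Γ) :
    ∀ a, (Cay S).Reachable a (a * g) := by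
  have hg : g ∈ Subgroup.closure (S : Set Γ) := by rw [hS]; trivial
  induction hg using Subgroup.closure_induction with
  | mem s hs =>
    intro a
    by_cases h1 : a = a * s
    · rw [← h1]
    · refine SimpleGraph.Adj.reachable ⟨h1, Or.inl ?_⟩
      rw [inv_mul_cancel_left]
      exact hs
  | one =>
    intro a
    rw [mul_one]
  | mul x y _ _ hx hy =>
    intro a
    rw [← mul_assoc]
    exact (hx a).trans (hy (a * x))
  | inv x _ hx =>
    intro a
    have := hx (a * x⁻¹)
    rw [inv_mul_cancel_right] at this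
    exact this.symm

theorem cay_conn (S : Finset Γ) (hS : Subgroup.closure (S : Set Γ) = ⊤) : (Cay S).Connected := by
  have : Nonempty Γ := ⟨1⟩
  refine ⟨fun a b => ?_⟩
  have := cay_reach S hS (a⁻¹ * b) a
  rwa [mul_inv_cancel_left] at this

theorem cay_deg (S : Finset Γ) : BddDegree (Cay S) := by
  classical
  refine ⟨S.card + S.card, fun u => ?_⟩
  have hsub : {v | (Cay S).Adj u v} ⊆
      ((S.image (fun s => u * s) ∪ S.image (fun s => u * s⁻¹) : Finset Γ) : Set Γ) := by
    rintro v ⟨-, h | h⟩
    · rw [Finset.mem_coe, Finset.mem_union, Finset.mem_image]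
      exact Or.inl ⟨_, h, mul_inv_cancel_left u v⟩
    · rw [Finset.mem_coe, Finset.mem_union, Finset.mem_image, Finset.mem_image]
      exact Or.inr ⟨_, h, by group⟩
  refine ⟨(Finset.finite_toSet _).subset hsub, ?_⟩
  refine (Set.ncard_le_ncard hsub (Finset.finite_toSet _)).trans ?_
  rw [Set.ncard_coe_finset]
  exact (Finset.card_union_le _ _).trans (add_le_add Finset.card_image_le Finset.card_image_le)

theorem sub_sum (S : Finset Γ) (φ : Γ → ℂ) (hφ : Dirichlet (Cay S) φ) (s : Γ)
    (hs : s ∈ S ∨ s⁻¹ ∈ S) : Sq fun a : Γ => φ (a * s) - φ a := by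
  by_cases h1 : s = 1
  · subst h1
    simp only [mul_one, sub_self]
    exact Pool.Agent.Y343.LC.sum_sq_zero
  · have hadj : ∀ a : Γ, (Cay S).Adj a (a * s) := by
      intro a
      refine ⟨fun h => h1 (mul_eq_left.1 h.symm), ?_⟩
      rw [inv_mul_cancel_left, mul_inv_rev, inv_mul_cancel_right]
      exact hs
    have hinj : Function.Injective (fun a : Γ =>
        (⟨(a, a * s), hadj a⟩ : {p : Γ × Γ // (Cay S).Adj p.1 p.2})) := by
      intro a b hab
      exact congrArg (fun p : {p : Γ × Γ // (Cay S).Adj p.1 p.2} => p.1.1) hab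
    have h2 : Summable (fun p : {p : Γ × Γ // (Cay S).Adj p.1 p.2} =>
        ‖φ p.1.2 - φ p.1.1‖ ^ 2) := hφ
    have h3 := Summable.comp_injective h2 hinj
    exact h3.congr fun a => rfl

theorem t_GRP : StmGrp := by
  classical
  intro Γ _ S hS hH
  refine ⟨cay_conn S hS, cay_deg S, fun φ hφ => ?_⟩
  let K : Cx Γ := ⟨Cay S, fun _ _ _ => False, fun _ _ _ h => h.elim⟩
  have hinv : Function.Injective (fun x : Γ => x⁻¹) := inv_injective
  obtain ⟨k, hk⟩ := normalize K (cay_conn S hS) Γ hH φ (by
    intro u v huv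
    rw [mem_l2]
    have huv' : (Cay S).Adj u v := huv
    have hs : u⁻¹ * v ∈ S ∨ (u⁻¹ * v)⁻¹ ∈ S := by
      rw [mul_inv_rev, inv_inv]
      exact huv'.2
    have h1 := sub_sum S φ hφ _ hs
    have hinj : Function.Injective (fun x : Γ => x⁻¹ * u) := fun a b hab =>
      inv_injective (mul_right_cancel hab)
    have h2 := Summable.comp_injective h1 hinj
    refine h2.congr fun x => ?_
    simp only [Function.comp_apply, smul_eq_mul]
    rw [mul_assoc, mul_inv_cancel_left])
  refine ⟨k, ?_⟩
  have h1 := hk 1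
  rw [mem_l2] at h1
  have h2 := Summable.comp_injective h1 hinv
  refine h2.congr fun x => ?_
  simp only [Function.comp_apply, smul_eq_mul, inv_inv, mul_one]

end

end Pool.Agent.Y383.LD
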