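import Pool.Agent.Y343.LD.Stm

/-!
Spectral gap and Liouville property imply that the functions with finite Dirichlet energy are
sums of constants and square-summable functions (job LD-GAP of helper343, by helper383).
-/

set_option autoImplicit false

namespace Pool.Agent.Y383.LD

open Pool.Agent.Y343.LD Filter Topology

noncomputable section

abbrev l2 (ι : Type) : Type := lp (fun _ : ι => ℂ) 2

theorem norm_sq {ι : Type} (f : l2 ι) : ‖f‖ ^ 2 = ∑' i, ‖f i‖ ^ 2 := by
  have h := lp.norm_rpow_eq_tsum (p := 2) (by norm_num) f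
  simpa using h

theorem mem_of_sq {ι : Type} {f : ι → ℂ} (h : Sq f) : Memℓp f 2 := by
  refine memℓp_gen ?_
  unfold Sq at h
  simpa using h

theorem sq_of_mem {ι : Type} (f : l2 ι) : Sq (fun i => f i) := by
  have h := (lp.memℓp f).summable (by norm_num)
  unfold Sq
  simpa using h

/-- a square-summable function as an element of the Hilbert space -/
def mkl {ι : Type} (f : ι → ℂ) (h : Sq f) : l2 ι := ⟨f, mem_of_sq h⟩

theorem mkl_apply {ι : Type} (f : ι → ℂ) (h : Sq f) (i : ι) : mkl f h i = f i := rfl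

variable {V : Type} (X : SimpleGraph V)

/-- the directed edges -/
abbrev DE : Type := {p : V × V // X.Adj p.1 p.2}

/-- the coboundaries of the square-summable functions -/
def Rg : Submodule ℂ (l2 (DE X)) where
  carrier := {ω | ∃ g : V → ℂ, Sq g ∧ ∀ p, ω p = g p.1.2 - g p.1.1}
  zero_mem' := ⟨0, Pool.Agent.Y343.LC.sum_sq_zero, fun p => by simp⟩
  add_mem' := by
    rintro a b ⟨f, hf, hf'⟩ ⟨g, hg, hg'⟩
    refine ⟨f + g, Pool.Agent.Y343.LC.sum_sq_add hf hg, fun p => ?_⟩
    rw [lp.coeFn_add, Pi.add_apply, hf', hg', Pi.add_apply, Pi.add_apply]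
    ring
  smul_mem' := by
    rintro c a ⟨f, hf, hf'⟩
    refine ⟨c • f, Pool.Agent.Y343.LC.sum_sq_smul c hf, fun p => ?_⟩
    rw [lp.coeFn_smul, Pi.smul_apply, hf', Pi.smul_apply, Pi.smul_apply, smul_sub]

theorem Rg_closed (hG : Gap X) : IsClosed (Rg X : Set (l2 (DE X))) := by
  obtain ⟨C, hC⟩ := hG
  have hC' : ∀ g : V → ℂ, ∀ hg : Sq g, ∀ ω : l2 (DE X), (∀ p, ω p = g p.1.2 - g p.1.1) →
      ‖mkl g hg‖ ^ 2 ≤ max C 0 * ‖ω‖ ^ 2 := by
    intro g hg ω hω
    have h1 : Dirichlet X g := by
      have := sq_of_mem ω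
      unfold Dirichlet
      simpa only [hω] using this
    have h2 := hC g hg h1
    rw [norm_sq, norm_sq]
    simp only [mkl_apply, hω]
    refine h2.trans (mul_le_mul_of_nonneg_right (le_max_left _ _) ?_)
    exact tsum_nonneg fun p => by positivity
  refine IsSeqClosed.isClosed ?_
  intro ω ω₀ hω hlim
  choose g hg hg' using hω
  set γ : ℕ → l2 V := fun n => mkl (g n) (hg n) with hγ
  have hK : 0 ≤ max C 0 := le_max_right _ _
  have hdist : ∀ m n, ‖γ m - γ n‖ ^ 2 ≤ max C 0 * ‖ω m - ω n‖ ^ 2 := by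
    intro m n
    have h1 : Sq (fun v => g m v - g n v) := sq_of_mem (γ m - γ n)
    have h2 := hC' (fun v => g m v - g n v) h1 (ω m - ω n) (fun p => by
      rw [lp.coeFn_sub, Pi.sub_apply, hg', hg']
      ring)
    have h3 : mkl (fun v => g m v - g n v) h1 = γ m - γ n := by
      apply lp.ext
      funext v
      rfl
    rwa [h3] at h2
  have hdist' : ∀ m n, ‖γ m - γ n‖ ≤ Real.sqrt (max C 0) * ‖ω m - ω n‖ := by
    intro m n
    rw [← Real.sqrt_sq (norm_nonneg (γ m - γ n))]
    refine (Real.sqrt_le_sqrt (hdist m n)).trans ?_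
    rw [Real.sqrt_mul hK, Real.sqrt_sq (norm_nonneg _)]
  have hcω : CauchySeq ω := hlim.cauchySeq
  have hcγ : CauchySeq γ := by
    rw [Metric.cauchySeq_iff] at hcω ⊢
    intro ε hε
    obtain ⟨N, hN⟩ := hcω (ε / (Real.sqrt (max C 0) + 1)) (by positivity)
    refine ⟨N, fun m hm n hn => ?_⟩
    have h1 := hN m hm n hn
    rw [dist_eq_norm] at h1 ⊢
    have h2 := hdist' m n
    rw [lt_div_iff₀ (by positivity)] at h1
    have h3 : 0 ≤ ‖ω m - ω n‖ := norm_nonneg _
    nlinarith
  obtain ⟨γ₀, hγ₀⟩ := cauchySeq_tendsto_of_complete hcγ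
  have hev : ∀ {ι : Type} (f : ℕ → l2 ι) (f₀ : l2 ι), Tendsto f atTop (𝓝 f₀) → ∀ i,
      Tendsto (fun n => f n i) atTop (𝓝 (f₀ i)) := by
    intro ι f f₀ hf i
    rw [tendsto_iff_norm_sub_tendsto_zero] at hf ⊢
    refine squeeze_zero (fun _ => norm_nonneg _) (fun n => ?_) hf
    have := lp.norm_apply_le_norm (p := 2) (by norm_num) (f n - f₀) i
    rwa [lp.coeFn_sub, Pi.sub_apply] at this
  refine ⟨fun v => γ₀ v, sq_of_mem γ₀, fun p => ?_⟩
  have h1 := hev ω ω₀ hlim p
  have h2 := (hev γ γ₀ hγ₀ p.1.2).sub (hev γ γ₀ hγ₀ p.1.1)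
  refine tendsto_nhds_unique h1 (h2.congr fun n => ?_)
  rw [hg' n p]
  rfl

theorem t_GAP : StmGap := by
  classical
  intro V X hX hfin hG hLi φ hφ
  have hcl := Rg_closed X hG
  have : CompleteSpace (Rg X) := hcl.completeSpace_coe
  obtain ⟨y, ⟨g, hg, hg'⟩, z, hz, hyz⟩ :=
    (Rg X).exists_add_mem_mem_orthogonal (mkl (fun p : DE X => φ p.1.2 - φ p.1.1) hφ)
  set ψ : V → ℂ := fun v => φ v - g v with hψ
  have hzψ : ∀ p : DE X, z p = ψ p.1.2 - ψ p.1.1 := by
    intro p
    have h1 : φ p.1.2 - φ p.1.1 = y p + z p := congrArg (fun f : l2 (DE X) => f p) hyz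
    rw [hg'] at h1
    rw [hψ]
    simp only
    linear_combination -h1
  have hDψ : Dirichlet X ψ := by
    have := sq_of_mem z
    unfold Dirichlet
    simpa only [hzψ] using this
  have hharm : Harmonic X ψ := by
    intro v
    have hfv : Finite {w // X.Adj v w} := (hfin v).to_subtype
    -- the two embeddings
    set e1 : {w // X.Adj v w} → DE X := fun w => ⟨(v, w.1), w.2⟩ with he1
    set e2 : {w // X.Adj v w} → DE X := fun w => ⟨(w.1, v), w.2.symm⟩ with he2
    have i1 : Function.Injective e1 := fun a b hab => by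
      have := congrArg (fun p : DE X => p.1.2) hab
      exact Subtype.ext this
    have i2 : Function.Injective e2 := fun a b hab => by
      have := congrArg (fun p : DE X => p.1.1) hab
      exact Subtype.ext this
    set δ : V → ℂ := fun w => if w = v then 1 else 0 with hδ
    have hδs : Sq δ := by
      refine summable_of_ne_finset_zero (s := {v}) fun w hw => ?_
      rw [Finset.mem_singleton] at hw
      rw [hδ]
      simp only [if_neg hw, norm_zero]
      norm_num
    set F1 : DE X → ℂ := fun p => if p.1.2 = v then ψ p.1.2 - ψ p.1.1 else 0 with hF1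
    set F2 : DE X → ℂ := fun p => if p.1.1 = v then ψ p.1.2 - ψ p.1.1 else 0 with hF2
    have s1 : Function.support F1 ⊆ Set.range e2 := by
      intro p hp
      rw [Function.mem_support, hF1] at hp
      have h1 : p.1.2 = v := by
        by_contra h
        exact hp (if_neg h)
      obtain ⟨⟨a, b⟩, hab⟩ := p
      simp only at h1
      subst h1
      exact ⟨⟨a, hab.symm⟩, rfl⟩
    have s2 : Function.support F2 ⊆ Set.range e1 := by
      intro p hp
      rw [Function.mem_support, hF2] at hp
      have h1 : p.1.1 = v := by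
        by_contra h
        exact hp (if_neg h)
      obtain ⟨⟨a, b⟩, hab⟩ := p
      simp only at h1
      subst h1
      exact ⟨⟨b, hab⟩, rfl⟩
    have m1 : Summable F1 := summable_of_hasFiniteSupport ((Set.finite_range e2).subset s1)
    have m2 : Summable F2 := summable_of_hasFiniteSupport ((Set.finite_range e1).subset s2)
    have t1 : ∑' p, F1 p = -∑' w : {w // X.Adj v w}, (ψ w.1 - ψ v) := by
      rw [← i2.tsum_eq s1, ← tsum_neg]
      refine tsum_congr fun w => ?_
      rw [hF1, he2]
      simp only [if_true]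
      ring
    have t2 : ∑' p, F2 p = ∑' w : {w // X.Adj v w}, (ψ w.1 - ψ v) := by
      rw [← i1.tsum_eq s2]
      refine tsum_congr fun w => ?_
      rw [hF2, he1]
      simp only [if_true]
    have hDδ : Sq (fun p : DE X => δ p.1.2 - δ p.1.1) := by
      refine summable_of_hasFiniteSupport (((Set.finite_range e1).union (Set.finite_range e2)).subset ?_)
      intro p hp
      rw [Function.mem_support] at hp
      by_cases h1 : p.1.1 = v
      · left
        obtain ⟨⟨a, b⟩, hab⟩ := p
        simp only at h1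
        subst h1
        exact ⟨⟨b, hab⟩, rfl⟩
      · by_cases h2 : p.1.2 = v
        · right
          obtain ⟨⟨a, b⟩, hab⟩ := p
          simp only at h2
          subst h2
          exact ⟨⟨a, hab.symm⟩, rfl⟩
        · exfalso
          apply hp
          rw [hδ]
          simp [h1, h2]
    have hin : inner ℂ (mkl _ hDδ) z = 0 :=
      (Submodule.mem_orthogonal _ _).1 hz _ ⟨δ, hδs, fun p => rfl⟩
    rw [lp.inner_eq_tsum] at hin
    have hin' : ∑' p, (F1 p - F2 p) = 0 := by
      rw [← hin]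
      refine tsum_congr fun p => ?_
      rw [mkl_apply, hzψ, RCLike.inner_apply, hF1, hF2, hδ]
      simp only
      by_cases h1 : p.1.1 = v <;> by_cases h2 : p.1.2 = v <;> simp [h1, h2]
    rw [m1.tsum_sub m2, t1, t2] at hin'
    have h0 : ∑' w : {w // X.Adj v w}, (ψ w.1 - ψ v) = 0 := by
      linear_combination (-1 / 2) * hin'
    rw [← finsum_set_coe_eq_finsum_mem, ← h0, tsum_eq_finsum (Set.toFinite _)]
    rfl
  have hconst := hLi ψ hDψ hharm
  obtain ⟨v0⟩ := hX.nonempty
  refine ⟨ψ v0, ?_⟩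
  have h1 : (fun v => φ v - ψ v0) = g := by
    funext v
    rw [hconst v0 v, hψ]
    simp
  rw [h1]
  exact hg

end

end Pool.Agent.Y383.LD
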